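import Pool.Agent.Lib.Helper3.TypeFI.Planes

set_option autoImplicit false

namespace Pool.Agent.Results.MP_a5e159_co.AbelianTypeF

open Configuration Pool.Agent.Lib.Helper3.TypeFI

/-- Every finite projective plane that admits an abelian collineation group of type (f) is
desarguesian. -/
theorem result.{u, v} (P : Type u) (L : Type v) [Finite P] [Finite L] [Membership P L]
    [ProjectivePlane P L] (G : Subgroup (Equiv.Perm P × Equiv.Perm L)) (a b : P) (l l' : L)
    (hG : IsTypeF G a b l l') (hcomm : ∀ g ∈ G, ∀ h ∈ G, g * h = h * g) : Desarguesian P L :=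
  planes P L G a b l l' hG hcomm

end Pool.Agent.Results.MP_a5e159_co.AbelianTypeF
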